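import Pool.Agent.H564R3.RN.Main
import Pool.Agent.H564R3.RN.Shallow

/-!
Shallow does not mean narrow, even with coins and approximation: registers and depth for the
partition functions of constraint networks.
-/

set_option autoImplicit false

namespace Pool.Agent.Results.MP_1a6d78_lc.ApproximationWidth

open Finset
open Pool.Agent.H564R3.PW (Instr exec)
open Pool.Agent.H564R3.TD
open Pool.Agent.H564R3.RN
open scoped NNReal

/-- **Coins and approximation save neither width nor depth.** (1) Randomised subtraction-free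
programs with two-sided error `e` which approximate within a factor `r'` the partition functions
of networks of treedepth greater than `d`. (2) The depth of randomised subtraction-free formulas
for them. (3) A path with `2 ^ h` constraints has treedepth greater than `h`. (4) Its partition
function has programs of polynomial size with few registers and (5) shallow formulas. -/
theorem result :
    (∀ (n r m : ℕ) (sc : Fin r → Finset (Fin n)), (∀ v, ∃ e, v ∈ sc e) → 1 ≤ m →
      ∀ d : ℕ, ¬ TDle sc d univ →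
      ∀ (ρ : Type) [Fintype ρ] [DecidableEq ρ] (Λ : Type) [Fintype Λ] (e : ℝ) (r' : ℝ≥0)
        (pr : Λ → ℝ) (p : Λ → List (Instr ℝ≥0 (CVar n r m) ρ)) (o : ρ),
        RandomApprox sc e r' pr p o → ∀ T : ℕ, (∀ l, (p l).length ≤ T) →
          (1 - 2 * e) * (m : ℝ) ^ (d + 1) ≤
            2 * (T : ℝ) * (((Nat.clog 2 T : ℝ) + 1) * (Fintype.card ρ : ℝ)) ^ (d + 1)) ∧
    (∀ (n r m : ℕ) (sc : Fin r → Finset (Fin n)), (∀ v, ∃ e, v ∈ sc e) → 1 ≤ m →
      ∀ d : ℕ, ¬ TDle sc d univ →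
      ∀ (Λ : Type) [Fintype Λ] (e : ℝ) (r' : ℝ≥0) (pr : Λ → ℝ) (f : Λ → Fm ℝ≥0 (CVar n r m)),
        RandomFormula sc e r' pr f → ∀ D : ℕ, (∀ l, (f l).depth ≤ D) →
          (1 - 2 * e) * (m : ℝ) ^ (d + 1) ≤
            2 ^ (D + 2) * (((D : ℝ) + 2) * ((D : ℝ) + 1)) ^ (d + 1)) ∧
    (∀ h : ℕ, (∀ v, ∃ e, v ∈ pathSc (2 ^ h) e) ∧ ¬ TDle (pathSc (2 ^ h)) h univ) ∧
    (∀ (h m : ℕ) (R : Type) [CommSemiring R], ∃ (ρ : Type) (_ : Fintype ρ) (_ : DecidableEq ρ)
      (p : List (Instr R (CVar (2 ^ h + 1) (2 ^ h) m) ρ)) (o : ρ),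
      Fintype.card ρ = (h + 2) * m + 3 ∧ p.length ≤ 10 * m ^ 2 * 2 ^ h ∧
      ∀ w : CVar (2 ^ h + 1) (2 ^ h) m → R, exec w p o = netSum (pathSc (2 ^ h)) w) ∧
    (∀ (h m : ℕ), 1 ≤ m → ∀ (R : Type) [CommSemiring R],
      ∃ f : Fm R (CVar (2 ^ h + 1) (2 ^ h) m),
        f.depth ≤ h * (Nat.clog 2 m + 1) + 2 * Nat.clog 2 m ∧
        ∀ w : CVar (2 ^ h + 1) (2 ^ h) m → R, f.eval w = netSum (pathSc (2 ^ h)) w) := by
  refine ⟨?_, ?_, ?_, ?_, ?_⟩
  · intro n r m sc hcov hm d hd ρ _ _ Λ _ e r' pr p o h T hT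
    exact net_approx sc hcov hm d hd e r' pr p o h T hT
  · intro n r m sc hcov hm d hd Λ _ e r' pr f h D hD
    exact net_depth sc hcov hm d hd e r' pr f h D hD
  · intro h
    exact ⟨path_cov (2 ^ h) Nat.one_le_two_pow, path_depth h (2 ^ h) le_rfl⟩
  · intro h m R _
    exact path_prog h m
  · intro h m hm R _
    exact path_shallow h m hm

end Pool.Agent.Results.MP_1a6d78_lc.ApproximationWidth
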