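import Pool.Agent.H870R2.LS.WFinal
import Pool.Agent.H870R2.LS.NCUp

set_option autoImplicit false

/-! # Local symmetry: NC is not contained in SC

The template function `Tem H n` reads a path system on `5 H (n + 1) ^ 2 + 1` elements, all of whose
rules lead from the labels of the two fixed predecessors of a place to the labels of the place
(five labels for each of the `H (n + 1) ^ 2` places, which are arranged in `H` rows), and says if
its target is derivable.

(1) For `n = 2 ^ p` it is computed by circuits of depth `(2 p + 6) H` with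
`1000 (p + 1) H (n + 1) ^ 2` gates of fan-in at most `25` (AND, OR; literals at the inputs) that are
symmetric under all permutations of the labels of each place.
(2) Every layered circuit whose gates compute arbitrary functions of the number of true input
wires, that is symmetric under the even permutations of the labels of the places of the first `R`
rows and has at most `2 ^ (R - 4)` layers, has a layer with more than `w` gates, if
`(log_5 (H (n + 1) ^ 2) + 2) (12 w (log_5 w + 1) + 8) ≤ n`. -/

namespace Pool.Agent.Results.MP_1a6d78_lc.LocalSymmetryWidth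

open Pool.Agent.H870R2.LS

theorem result :
    (∀ (H p : ℕ) (h : 0 < H),
      ∃ (Q : Type) (_ : Fintype Q) (C : LCkt (Inp (TEl H (2 ^ p))) Q),
        (∀ x, C.Val x C.out ↔ Tem H (2 ^ p) h x) ∧
        (∀ g, (C.ins g).ncard ≤ 25) ∧
        (∀ g, C.lay g ≤ (2 * p + 6) * H) ∧
        Fintype.card Q ≤ 1000 * (p + 1) * H * (2 ^ p + 1) ^ 2 ∧
        (∀ (v : Pla H (2 ^ p)) (a : Equiv.Perm (Fin 5)) (p' : Equiv.Perm (TEl H (2 ^ p))),
          (∀ c, p' (tblk v c) = tblk v (a c)) → (∀ u, u ∉ Set.range (tblk v) → p' u = u) →
          ∃ φ, C.IsAut (inpPerm p') φ)) ∧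
    (∀ (H n : ℕ) (h : 0 < H) (Q : Type) [Fintype Q] (C : WCkt (Inp (TEl H n)) Q),
      (∀ x, C.val x C.out = true ↔ Tem H n h x) →
      ∀ R : ℕ, R ≤ H → 4 ≤ R → (∀ v : Pla H n, v.1.val < R → C.SymOn (tblk v)) →
      C.lay C.out < 2 ^ (R - 4) →
      ∀ w : ℕ,
        (Nat.log 5 (H * (n + 1) * (n + 1)) + 2) * (12 * w * (Nat.log 5 w + 1) + 8) ≤ n →
        ∃ j, w < {g | C.lay g = j}.ncard) :=
  ⟨fun H p h => nc_upper H p h,
    fun H n h _ _ C hC R hRH hR4 hs hm w hn => width_final H n h C hC R hRH hR4 hs hm w hn⟩

end Pool.Agent.Results.MP_1a6d78_lc.LocalSymmetryWidth
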