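import Pool.Agent.H564R3.MR.Lower
import Pool.Agent.H564R3.NR.Freeze
import Pool.Agent.H564R3.NR.Proj
import Pool.Agent.H564R3.NR.NumSt
import Pool.Agent.H564R3.NR.Bfs

/-!
Polynomial-size programs with few negations for directed reachability need width
`N ^ (1 - o(1)) / 2 ^ t`.
-/

set_option autoImplicit false

namespace Pool.Agent.Results.MP_1a6d78_lc.ReachabilityWidth

open Pool.Agent.H564R3.NR
open Pool.Agent.H564R3.PW (Pos pairs Arc var)
open Pool.Agent.H564R3.MR (HasClique)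

/-- for two or more layers the empty graph has no chained clique -/
theorem not_hasClique {n m : ℕ} (hn : 2 ≤ n) :
    ¬ HasClique (k := 1) (n := n) (m := m) fun _ => false := by
  rintro ⟨φ, h⟩
  have h1 : 0 < (pairs 1 n).card := by
    have := Pool.Agent.H564R3.PW.card_pairs 1 n
    omega
  obtain ⟨e, he⟩ := Finset.card_pos.1 h1
  exact absurd (h e he) (by simp)

theorem lower (g : ℕ) (hg : 1 ≤ g) : ∃ N₀ : ℕ, ∀ N ≥ N₀, ∀ hN : 2 ≤ N,
    ∀ (ρ : Type) [Fintype ρ] [DecidableEq ρ] (p : List (NInstr (Fin N × Fin N) ρ)) (o : ρ),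
      NIsMono p → NDecides (StConn hN) p o → p.length ≤ N ^ g →
        N ^ g ≤ N * ((Fintype.card ρ + 1) * 2 ^ negs p) ^ g := by
  obtain ⟨n₀, m₀, h₀⟩ := Pool.Agent.H564R3.MR.lower 1 (g ^ 2 + 1) le_rfl (by omega)
  set n := n₀ + 2 with hn
  obtain ⟨N₀, hN₀⟩ := num_st g n hg (by omega) m₀
  refine ⟨N₀, fun N hN hN2 ρ _ _ p o hp ho hT => ?_⟩
  refine hN₀ N hN (2 ^ negs p) (Fintype.card ρ) p.length Nat.one_le_two_pow
    (Fintype.card_pos_iff.2 ⟨o⟩) hT ?_
  intro m hm hqm hTm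
  obtain ⟨p₁, hp₁, ho₁, hneg, hlen⟩ := st_proj (by omega) hqm hN2 p hp o ho
  obtain ⟨p₂, hp₂, ho₂, hlen₂⟩ := freeze (HasClique (k := 1) (n := n) (m := m))
    (not_hasClique (by omega)) (2 ^ negs p) p₁ hp₁ o ho₁ (by rw [hneg])
  have h3 := h₀ n (by omega) m hm (Option ρ) p₂ none hp₂ ho₂ (by rw [hlen] at hlen₂; omega)
  rw [one_mul, Fintype.card_option] at h3
  exact h3

/-- **Polynomial-size programs for reachability need width `N ^ (1 - o(1)) / 2 ^ t`**, where `t` is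
the number of negations. (1) Lower bound. (2) Matching upper bound by a program with the operations
`min` (AND), `max` (OR) and the constant `1` only. -/
theorem result :
    (∀ g : ℕ, 1 ≤ g → ∃ N₀ : ℕ, ∀ N ≥ N₀, ∀ hN : 2 ≤ N,
      ∀ (ρ : Type) [Fintype ρ] [DecidableEq ρ] (p : List (NInstr (Fin N × Fin N) ρ)) (o : ρ),
        NIsMono p → NDecides (StConn hN) p o → p.length ≤ N ^ g →
          N ^ g ≤ N * ((Fintype.card ρ + 1) * 2 ^ negs p) ^ g) ∧
    (∀ (N : ℕ) (hN : 2 ≤ N), ∃ (p : List (NInstr (Fin N × Fin N) (Option (Fin N))))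
      (o : Option (Fin N)),
      (∀ (i : Option (Fin N)) (f : ℝ → ℝ → ℝ) (j l : Option (Fin N)), NInstr.app i f j l ∈ p →
        f = (fun a b => min a b) ∨ f = (fun a b => max a b) ∨ f = (fun _ _ => 1)) ∧
      NDecides (StConn hN) p o ∧ negs p = 0 ∧ p.length = 3 * N ^ 3 + 1) :=
  ⟨fun g hg => lower g hg, fun _ hN => bfs hN⟩

end Pool.Agent.Results.MP_1a6d78_lc.ReachabilityWidth
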