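import Mathlib
import Pool.Agent.H540R2.Circ
import Pool.Agent.H540R2.Lift.Defs
import Pool.Agent.H540R2.Lift.NegDefs
import Pool.Agent.H540R2.Lift.XMain

/-!
# Depth slightly above log n is not in SC with few NOT gates

There is a function in non-uniform monotone NC, even of polynomial size and depth
`O(log n (log log n) ^ 3)`, such that all its circuits of polynomial size and polylogarithmic width
have at least `log n - O(log log n)` NOT gates.
-/

set_option autoImplicit false

namespace Pool.Agent.Results.MP_1a6d78_lc.ShallowNotInSC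

open Pool.Agent.H540R2

/-- There is a function `f` which has monotone circuits of polynomial size and depth
`O(log n (log log n) ^ 3)`, but for every `a` all circuits for `f` of size at most `n ^ a` which are
layered of width at most `(log n) ^ a` have at least `log n - O(log log n)` NOT gates. -/
theorem result : ∃ f : (n : ℕ) → (Fin n → Bool) → Bool,
    (∃ c : ℕ, ∀ n, ∃ C : Circuit n, C.Monotone ∧ (∀ x, C.eval x = f n x) ∧
      C.size ≤ n ^ c + c ∧
      C.depth ≤ c * ((Nat.log 2 n + 1) * (Nat.log 2 (Nat.log 2 n + 1) + 1) ^ 3)) ∧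
    ∀ a : ℕ, ∃ c n₀ : ℕ, ∀ n ≥ n₀, ∀ (C : Circuit n) (w : ℕ), (∀ x, C.eval x = f n x) →
      C.size ≤ n ^ a → C.Layered w → w ≤ (Nat.log 2 n) ^ a →
      n ≤ (Nat.log 2 n) ^ c * 2 ^ C.nots :=
  Pool.Agent.H540R2.Lift.shallow_neg

end Pool.Agent.Results.MP_1a6d78_lc.ShallowNotInSC
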